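import Pool.Agent.X265.GBS.Main

/-!
# Extensions with kernel a (virtual) generalized Baumslag-Solitar group of any rank

`C` is any class of groups which is closed under subgroups, overgroups of finite index and extensions with
free or with abelian kernel. Let `N` be a normal subgroup of a group `G` and let `A = N`, or let `N` be finitely
generated and `A` a subgroup of finite index of `N`. Suppose that `A` acts on a tree without inversions such
that the vertex stabilizers are torsion-free abelian and each edge stabilizer contains a nonzero power of every
element of the two adjacent vertex stabilizers. Suppose that the vertex stabilizers have rank at most one, or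
that some term of the derived series of `A` centralizes powers of all elements of the vertex stabilizers (that
is: the image of the modular homomorphism is soluble). If `G / N` is in `C`, then `G` is in `C`.

Nothing is assumed on the action of `G` on `N`. The proof shows that a term of the derived series of `A` acts
freely on the tree: if a subgroup `H` of `A` centralizes powers of all elliptic elements, then every character
of a vertex stabilizer of `H` extends rationally to `H` (gluing along the tree), so `[H, H]` acts freely. In
rank one, `H = [A, A]` centralizes powers of all elliptic elements.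
-/

set_option autoImplicit false

namespace Pool.Agent.Results.MP_d19827_al.BaumslagSolitarKernels

open Pool.Agent.X265.GBS

/-- Let `C` be a class of groups which is closed under subgroups (isomorphic embeddings), overgroups of
finite index, extensions with free kernel and extensions with abelian kernel. Let `N` be a normal subgroup of
`G`; let `A = N`, or let `N` be finitely generated and `A ≤ N` of finite index. Let `A` act on a tree `T`
without inversions such that all vertex stabilizers are abelian (`hcomm`) and torsion-free (`htf`) and each
edge stabilizer contains nonzero powers of all elements of the adjacent vertex stabilizers (`hfull`). Assume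
that any two elements `y ≠ 1`, `z` of a vertex stabilizer satisfy `z ^ m = y ^ n` for some `m ≠ 0`, `n` (rank at
most one), or that for some `d` every element of the `d`-th derived subgroup of `A` centralizes a nonzero power of
each element of each vertex stabilizer. If `G ⧸ N` is in `C`, then `G` is in `C`. -/
theorem result (C : ∀ (G : Type) [Group G], Prop)
    (hsub : ∀ (A B : Type) [Group A] [Group B] (f : A →* B), Function.Injective f → C B → C A)
    (hfin : ∀ (H : Type) [Group H] (K : Subgroup H), K.FiniteIndex → C K → C H)
    (hfree : ∀ (H : Type) [Group H] (K : Subgroup H) [K.Normal], IsFreeGroup K → C (H ⧸ K) → C H)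
    (habel : ∀ (H : Type) [Group H] (K : Subgroup H) [K.Normal],
      (∀ a ∈ K, ∀ c ∈ K, a * c = c * a) → C (H ⧸ K) → C H)
    (G : Type) [Group G] (N A : Subgroup G) [N.Normal]
    (hA : A = N ∨ (A ≤ N ∧ A.relIndex N ≠ 0 ∧ Group.FG N))
    (V : Type) [MulAction A V] (T : SimpleGraph V) (hT : T.IsTree)
    (hadj : ∀ (g : A) (u v : V), T.Adj u v → T.Adj (g • u) (g • v))
    (hinv : ∀ (g : A) (u v : V), T.Adj u v → ¬ (g • u = v ∧ g • v = u))
    (hcomm : ∀ (v : V) (y z : A), y • v = v → z • v = v → y * z = z * y)
    (htf : ∀ (v : V) (y : A), y • v = v → y ≠ 1 → ∀ m : ℤ, y ^ m = 1 → m = 0)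
    (hfull : ∀ (u v : V), T.Adj u v → ∀ y : A, y • v = v → ∃ m : ℤ, m ≠ 0 ∧ (y ^ m) • u = u)
    (hmod : (∀ (v : V) (y z : A), y • v = v → z • v = v → y ≠ 1 → ∃ m n : ℤ, m ≠ 0 ∧ z ^ m = y ^ n) ∨
      ∃ d : ℕ, ∀ g ∈ derivedSeries A d, ∀ (v : V) (y : A), y • v = v →
        ∃ m : ℤ, m ≠ 0 ∧ g * y ^ m * g⁻¹ = y ^ m)
    (hQ : C (G ⧸ N)) : C G := by
  have h : Act A V T := ⟨hT, hadj, hinv, hcomm, htf, hfull⟩
  have hs : SolMod A V := hmod.elim (fun h1 => solMod_of_rankOne h h1) (fun h1 => h1)
  exact gbs_main ⟨hsub, hfin, hfree, habel⟩ N A hA h hs hQ

end Pool.Agent.Results.MP_d19827_al.BaumslagSolitarKernels
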