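import Pool.Agent.X267.BB.Dual

set_option autoImplicit false

/-! Groups whose group rings over prime fields are domains, with a free resolution one of whose
boundary matrices is an integral matrix, up to group elements, off one row and some columns (or off
one column and some rows). -/

namespace Pool.Agent.Results.MP_d19827_al.BorderedBoundary

open TH57.FF TH57.Thr TH57.TT2 TH6.LF Matrix Pool.Agent.X267.BB

/-- Suppose that the group rings of `G` over the prime fields of positive characteristic have no zero
divisors (e.g. that `G` has unique products), and let `A` be the matrix of `F_{n+2} → F_{n+1}` in an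
exact sequence `F_{n+2} → F_{n+1} → ... → F_0 → ℤ → 0` of free `ℤG`-modules with finite bases. Let
`A i j = N i j (g i) (h j)` with `g i, h j ∈ G` and integers `N i j` for all `i ≠ i₀` and all `j`
outside a set `Q` of columns, and let `Q` have at most one element or let each integral relation
between the rows `i ≠ i₀` of `N`, restricted to the columns outside `Q`, be a relation between the rows
`(g i)⁻¹ A i` of `ℤG`-vectors (for instance because the restricted rows of `N` are linearly
independent); or let the same hold with rows and columns interchanged, and let the cokernel of `A` be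
projective. Then `G` is of type FF. -/
theorem result (G : Type) [Group G]
    (hG : ∀ p : ℕ, p.Prime → NoZeroDivisors (MonoidAlgebra (ZMod p) G))
    (n m k : ℕ) (A : Matrix (Fin m) (Fin k) (MonoidAlgebra ℤ G)) (hA : Bd G (n + 1) A)
    (g : Fin m → G) (h : Fin k → G) (N : Matrix (Fin m) (Fin k) ℤ)
    (H : (∃ (i₀ : Fin m) (Q : Finset (Fin k)),
        (∀ i j, i ≠ i₀ → j ∉ Q → A i j = MonoidAlgebra.single (g i * h j) (N i j)) ∧
        (Q.card ≤ 1 ∨ ∀ t : Fin m → ℤ, t i₀ = 0 → (∀ j, j ∉ Q → ∑ i, t i * N i j = 0) →
          ∀ j ∈ Q, ∑ i, MonoidAlgebra.single (g i)⁻¹ (t i) * A i j = 0)) ∨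
      (∃ (j₀ : Fin k) (Q : Finset (Fin m)),
        (∀ i j, j ≠ j₀ → i ∉ Q → A i j = MonoidAlgebra.single (g i * h j) (N i j)) ∧
        (Q.card ≤ 1 ∨ ∀ t : Fin k → ℤ, t j₀ = 0 → (∀ i, i ∉ Q → ∑ j, N i j * t j = 0) →
          ∀ i ∈ Q, ∑ j, A i j * MonoidAlgebra.single (h j)⁻¹ (t j) = 0) ∧
        Module.Projective (MonoidAlgebra ℤ G)
          ((Fin k → MonoidAlgebra ℤ G) ⧸ LinearMap.range A.vecMulLinear))) :
    FFle G (n + 3) := by
  have hdom := domain hG
  have hFR : FR (MonoidAlgebra ℤ G) 1 (Im A) := by
    rcases H with ⟨i₀, Q, h1, h2⟩ | ⟨j₀, Q, h1, h2, hP⟩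
    · obtain ⟨l, B, -, hAB⟩ := hA
      refine FR_grp hG A i₀ Q g h N h1 ?_ h2
      intro s v hs hv
      have h3 : (s • v) ᵥ* B = 0 := (hAB _).2 hv
      rw [Matrix.smul_vecMul] at h3
      apply (hAB v).1
      funext j
      have h4 : s * (v ᵥ* B) j = 0 := congrFun h3 j
      exact (mul_eq_zero.1 h4).resolve_left hs
    · obtain ⟨Y, hY⟩ := regular_of_projective A _ hP (LinearEquiv.refl _ _)
      have hY' : adj A * adj Y * adj A = adj A := by
        rw [Matrix.mul_assoc, ← adj_mul, ← adj_mul, hY]
      have hmem : ∀ v : Fin m → MonoidAlgebra ℤ G, v ∈ Im (adj A) ↔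
          v ᵥ* (adj Y * adj A) = v := by
        intro v
        constructor
        · rintro ⟨y, rfl⟩
          show (y ᵥ* adj A) ᵥ* (adj Y * adj A) = y ᵥ* adj A
          rw [Matrix.vecMul_vecMul, ← Matrix.mul_assoc, hY']
        · intro hv
          refine ⟨v ᵥ* adj Y, ?_⟩
          show (v ᵥ* adj Y) ᵥ* adj A = v
          rw [Matrix.vecMul_vecMul, hv]
      apply FR_of_adj A Y hY
      refine FR_grp hG (adj A) j₀ Q (fun j => (h j)⁻¹) (fun i => (g i)⁻¹) (fun j i => N i j)
        ?_ ?_ ?_
      · intro j i hj hi
        rw [adj_apply, h1 i j hj hi, bar_single, _root_.mul_inv_rev]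
      · intro s v hs hv
        rw [hmem, Matrix.smul_vecMul] at hv
        rw [hmem]
        funext j
        have h4 : s * ((v ᵥ* (adj Y * adj A)) j - v j) = 0 := by
          rw [mul_sub, sub_eq_zero]
          exact congrFun hv j
        exact sub_eq_zero.1 ((mul_eq_zero.1 h4).resolve_left hs)
      · rcases h2 with h2 | h2
        · exact Or.inl h2
        · right
          intro t ht ht0 i hi
          have h3 := h2 t ht (fun i hi => by
            rw [← ht0 i hi]
            exact Finset.sum_congr rfl fun j _ => mul_comm _ _) i hi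
          have h4 := congrArg bar h3
          rw [bar_sum, bar_zero] at h4
          rw [← h4]
          refine Finset.sum_congr rfl fun j _ => ?_
          rw [bar_mul, bar_single, adj_apply]
  have h1 := FFle_of_FR (n + 1) A hA 1 hFR
  have h2 : 1 + (n + 1) + 1 = n + 3 := by ring
  rwa [h2] at h1

end Pool.Agent.Results.MP_d19827_al.BorderedBoundary
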