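import Pool.Agent.X201.FG.KSMain

/-!
# Extensions of graph products of groups with property FA

`C` is any class of groups with the closure properties `ClosedE C` such that every extension of a group
in `C` by a free kernel (of any rank) is in `C`. The class of the groups that satisfy the K-theoretic
Farrell–Jones conjecture with coefficients and finite wreath products is such a class.

Let the normal subgroup `N` of `G` be the graph product over a finite graph `Λ` of subgroups `B v` which
have property FA and trivial centre and are directly indecomposable, and let `G / N` be in `C`. Nothing is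
assumed on the action of `G` on `N`. Then `G` is in `C` if and only if the subgroups `(B v)⟨x⟩` are in `C`,
for all `v` and all `x` in `G` that normalize `B v`.
-/

set_option autoImplicit false

namespace Pool.Agent.Results.MP_d19827_al.IndecomposableFactorKernels

open Pool.Agent.Y110.FJ Pool.Agent.X201.FJ
open scoped Pointwise

/-- Let `C` be a class of groups with the closure properties `ClosedE C` which is closed under extensions
with free kernel, and let the normal subgroup `N` of `G` be the graph product of its subgroups `B v` over
the finite graph `Λ`, where each `B v` has property FA, has trivial centre and is directly indecomposable.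
If `G ⧸ N` is in `C`, then `G` is in `C` if and only if `(B v)⟨x⟩` is in `C` for all `v` and all `x` in `G`
normalizing `B v`. -/
theorem result (C : ∀ (G : Type) [Group G], Prop) (hC : ClosedE C)
    (hFK : ∀ (H : Type) [Group H] (K : Subgroup H) [K.Normal], IsFreeGroup K → C (H ⧸ K) → C H)
    (G V : Type) [Group G] [Finite V] (N : Subgroup G) [N.Normal] (Λ : SimpleGraph V)
    (B : V → Subgroup N) (h : IsGP Λ B)
    (hfa : ∀ v, FA (B v))
    (hcl : ∀ v, ∀ a ∈ B v, (∀ b ∈ B v, a * b = b * a) → a = 1)
    (hind : ∀ v, Indec (B v))
    (hQ : C (G ⧸ N)) :
    C G ↔ ∀ (v : V) (x : G), MulAut.conj x • (B v).map N.subtype = (B v).map N.subtype →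
      C ((B v).map N.subtype ⊔ Subgroup.zpowers x : Subgroup G) :=
  ⟨fun h _ _ _ => hC.base.of_injective _ _ (Subgroup.subtype _) (Subgroup.subtype_injective _) h,
    fun hv => ngp_fa hC hFK N Λ B h hfa hcl hind hQ hv⟩

end Pool.Agent.Results.MP_d19827_al.IndecomposableFactorKernels
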