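import Pool.Agent.X201.RA.Raag

/-!
# Extensions with kernel a (virtual) right-angled Artin group

`C` is any class of groups which is closed under subgroups, overgroups of finite index and extensions with
free or with abelian kernel. Let `N` be a normal subgroup of a group `G` which contains with finite index a
right-angled Artin group `A` (of a finite graph). If `G / N` is in `C`, then `G` is in `C`.

Nothing is assumed on the action of `G` on `N`. The proof uses a normal series of a right-angled Artin group
with free or abelian factors which is invariant under a subgroup of finite index of the automorphism group:
the generators of maximal valence fall into finitely many classes (equal links or equal stars), the normal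
closures of these classes are permuted by all automorphisms, and the commutator subgroups of these normal
closures are free.
-/

set_option autoImplicit false

namespace Pool.Agent.Results.MP_d19827_al.RightAngledArtinKernels

open Pool.Agent.X201.RA

/-- Let `C` be a class of groups which is closed under subgroups (isomorphic embeddings), overgroups of
finite index, extensions with free kernel and extensions with abelian kernel. Let `N` be a normal subgroup of
`G` with a subgroup `A` of finite index which is isomorphic to the right-angled Artin group of a finite
graph. If `G ⧸ N` is in `C`, then `G` is in `C`. -/
theorem result (C : ∀ (G : Type) [Group G], Prop)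
    (hsub : ∀ (A B : Type) [Group A] [Group B] (f : A →* B), Function.Injective f → C B → C A)
    (hfin : ∀ (H : Type) [Group H] (K : Subgroup H), K.FiniteIndex → C K → C H)
    (hfree : ∀ (H : Type) [Group H] (K : Subgroup H) [K.Normal], IsFreeGroup K → C (H ⧸ K) → C H)
    (habel : ∀ (H : Type) [Group H] (K : Subgroup H) [K.Normal],
      (∀ a ∈ K, ∀ c ∈ K, a * c = c * a) → C (H ⧸ K) → C H)
    (G : Type) [Group G] (N A : Subgroup G) [N.Normal] (hAN : A ≤ N) (hfi : A.relIndex N ≠ 0)
    (V : Type) [Finite V] (Λ : SimpleGraph V) (e : A ≃* RAAG Λ) (hQ : C (G ⧸ N)) : C G :=
  ra_virt ⟨hsub, hfin, hfree, habel⟩ A N hAN hfi (iso_ra Λ e) hQ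

end Pool.Agent.Results.MP_d19827_al.RightAngledArtinKernels
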